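import Pool.Agent.Helper9.MP.Lat

/-!
# DUAL: combinatorial Poincare duality
-/

set_option autoImplicit false

namespace Pool.Agent.Helper96.MP

open Complex MeasureTheory Filter Topology
open scoped MatrixGroups

section dual

theorem dual_SS : ModularGroup.S * ModularGroup.S = (-1 : SL(2, ℤ)) := by
  ext i j
  fin_cases i <;> fin_cases j <;> rfl

theorem dual_RRR : mR * mR * mR = (-1 : SL(2, ℤ)) := by
  ext i j
  fin_cases i <;> fin_cases j <;> rfl

theorem dual_T : ModularGroup.T = -(mR * ModularGroup.S) := by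
  ext i j
  fin_cases i <;> fin_cases j <;> rfl

theorem dual_Tinv : (ModularGroup.T)⁻¹ = -(ModularGroup.S * mR * mR) := by
  have h : ModularGroup.T * (-(ModularGroup.S * mR * mR)) = 1 := by
    ext i j
    fin_cases i <;> fin_cases j <;> rfl
  exact inv_eq_of_mul_eq_one_right h

theorem dual_Sinv : (ModularGroup.S)⁻¹ = -(ModularGroup.S : SL(2, ℤ)) := by
  have h : ModularGroup.S * (-(ModularGroup.S)) = (1 : SL(2, ℤ)) := by
    rw [mul_neg, dual_SS, neg_neg]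
  exact inv_eq_of_mul_eq_one_right h

theorem dual_cls_neg (N : ℕ) (g : SL(2, ℤ)) : cls N (-g) = cls N g := by
  unfold cls
  refine Quotient.sound ?_
  show eqv N ((-g) 1 0) ((-g) 1 1) (g 1 0) (g 1 1)
  refine ⟨-1, isCoprime_one_left.neg_left, ?_, ?_⟩
  · have : g 1 0 - -1 * (-g) 1 0 = 0 := by simp
    rw [this]
    exact dvd_zero _
  · have : g 1 1 - -1 * (-g) 1 1 = 0 := by simp
    rw [this]
    exact dvd_zero _

theorem dual_cancel (hM : ST_MVB) {N : ℕ} (hN : 1 ≤ N) (g h k : SL(2, ℤ)) :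
    cls N (g * k) = cls N (h * k) ↔ cls N g = cls N h := by
  constructor
  · intro e
    have := congrArg (fun x => mv N x k⁻¹) e
    simp only [(hM N hN).1] at this
    rwa [mul_inv_cancel_right, mul_inv_cancel_right] at this
  · intro e
    have := congrArg (fun x => mv N x k) e
    simp only [(hM N hN).1] at this
    exact this

/-- three times the average of the potential over the triangle -/
noncomputable def dA (C : ℤ → ℤ → ℝ) (g : SL(2, ℤ)) : ℝ :=
  (C (g 0 1) (g 1 1) + C (g 0 0 + g 0 1) (g 1 0 + g 1 1) + C (g 0 0) (g 1 0)) / 3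

/-- difference across an edge -/
def dF (C : ℤ → ℤ → ℝ) (g : SL(2, ℤ)) : ℝ :=
  C (g 0 1 - g 0 0) (g 1 1 - g 1 0) - C (g 0 0 + g 0 1) (g 1 0 + g 1 1)

open Classical in
/-- number of translates equal to `g` -/
noncomputable def dn (N : ℕ) (g : SL(2, ℤ)) (x : PN N) : ℤ :=
  (if x = cls N g then 1 else 0) + (if mv N x mR = cls N g then 1 else 0) +
    (if mv N x (mR * mR) = cls N g then 1 else 0)

theorem dual_neg {C : ℤ → ℤ → ℝ} (hC : Hom0 C) (x y : ℤ) : C (-x) (-y) = C x y := by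
  have := hC (-1) x y (by norm_num)
  simpa using this

theorem dA_neg {C : ℤ → ℤ → ℝ} (hC : Hom0 C) (g : SL(2, ℤ)) : dA C (-g) = dA C g := by
  unfold dA
  have e : ∀ i j, (-g) i j = -(g i j) := fun i j => by simp
  rw [e, e, e, e, ← neg_add, ← neg_add, dual_neg hC, dual_neg hC, dual_neg hC]

theorem dA_R {C : ℤ → ℤ → ℝ} (hC : Hom0 C) (g : SL(2, ℤ)) : dA C (g * mR) = dA C g := by
  unfold dA
  rw [Lib.mul00, Lib.mul01, Lib.mul10, Lib.mul11]
  have r00 : mR 0 0 = 1 := rfl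
  have r01 : mR 0 1 = -1 := rfl
  have r10 : mR 1 0 = 1 := rfl
  have r11 : mR 1 1 = 0 := rfl
  rw [r00, r01, r10, r11]
  have e1 : g 0 0 * -1 + g 0 1 * 0 = -(g 0 0) := by ring
  have e2 : g 1 0 * -1 + g 1 1 * 0 = -(g 1 0) := by ring
  have e3 : g 0 0 * 1 + g 0 1 * 1 = g 0 0 + g 0 1 := by ring
  have e4 : g 1 0 * 1 + g 1 1 * 1 = g 1 0 + g 1 1 := by ring
  rw [e1, e2, e3, e4, dual_neg hC]
  have e5 : g 0 0 + g 0 1 + -(g 0 0) = g 0 1 := by ring
  have e6 : g 1 0 + g 1 1 + -(g 1 0) = g 1 1 := by ring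
  rw [e5, e6]
  ring

theorem dA_S {C : ℤ → ℤ → ℝ} (hC : Hom0 C) (g : SL(2, ℤ)) :
    dA C (g * ModularGroup.S) = dA C g + (1 / 3) * dF C g := by
  unfold dA dF
  rw [Lib.mul00, Lib.mul01, Lib.mul10, Lib.mul11]
  have r00 : ModularGroup.S 0 0 = 0 := rfl
  have r01 : ModularGroup.S 0 1 = -1 := rfl
  have r10 : ModularGroup.S 1 0 = 1 := rfl
  have r11 : ModularGroup.S 1 1 = 0 := rfl
  rw [r00, r01, r10, r11]
  have e1 : g 0 0 * -1 + g 0 1 * 0 = -(g 0 0) := by ring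
  have e2 : g 1 0 * -1 + g 1 1 * 0 = -(g 1 0) := by ring
  have e3 : g 0 0 * 0 + g 0 1 * 1 = g 0 1 := by ring
  have e4 : g 1 0 * 0 + g 1 1 * 1 = g 1 1 := by ring
  rw [e1, e2, e3, e4, dual_neg hC]
  have e5 : g 0 1 + -(g 0 0) = g 0 1 - g 0 0 := by ring
  have e6 : g 1 1 + -(g 1 0) = g 1 1 - g 1 0 := by ring
  rw [e5, e6]
  ring

theorem dF_S {C : ℤ → ℤ → ℝ} (hC : Hom0 C) (g : SL(2, ℤ)) :
    dF C (g * ModularGroup.S) = - dF C g := by
  unfold dF
  rw [Lib.mul00, Lib.mul01, Lib.mul10, Lib.mul11]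
  have r00 : ModularGroup.S 0 0 = 0 := rfl
  have r01 : ModularGroup.S 0 1 = -1 := rfl
  have r10 : ModularGroup.S 1 0 = 1 := rfl
  have r11 : ModularGroup.S 1 1 = 0 := rfl
  rw [r00, r01, r10, r11]
  have e1 : g 0 0 * -1 + g 0 1 * 0 = -(g 0 0) := by ring
  have e2 : g 1 0 * -1 + g 1 1 * 0 = -(g 1 0) := by ring
  have e3 : g 0 0 * 0 + g 0 1 * 1 = g 0 1 := by ring
  have e4 : g 1 0 * 0 + g 1 1 * 1 = g 1 1 := by ring
  rw [e1, e2, e3, e4]
  have e5 : g 0 1 + -(g 0 0) = g 0 1 - g 0 0 := by ring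
  have e6 : g 1 1 + -(g 1 0) = g 1 1 - g 1 0 := by ring
  have e7 : -(g 0 0) - g 0 1 = -(g 0 0 + g 0 1) := by ring
  have e8 : -(g 1 0) - g 1 1 = -(g 1 0 + g 1 1) := by ring
  rw [e5, e6, e7, e8, dual_neg hC]
  ring

/-- the edge difference only depends on the class -/
theorem dF_cls (hCos : ST_COS) {N : ℕ} (hN : 1 ≤ N) {C : ℤ → ℤ → ℝ} (hC : EqC N C) (g : SL(2, ℤ)) :
    dF C (rep N (cls N g)) = dF C g := by
  have h1 := (hCos N hN).1 (cls N g)
  have h2 := ((hCos N hN).2 g (rep N (cls N g))).1 h1.symm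
  set γ := rep N (cls N g) * g⁻¹ with hγ
  have h3 : rep N (cls N g) = γ * g := by rw [hγ]; group
  have h4 := Lib.g0_of_mem h2
  have hd := Lib.det1 g
  have k1 := hC _ _ _ _ h4 (g 0 1 - g 0 0) (g 1 1 - g 1 0) (by
    by_contra hc
    push Not at hc
    obtain ⟨a, b⟩ := hc
    have a' : g 0 1 = g 0 0 := by linarith
    have b' : g 1 1 = g 1 0 := by linarith
    rw [a', b'] at hd
    linarith)
  have k2 := hC _ _ _ _ h4 (g 0 0 + g 0 1) (g 1 0 + g 1 1) (by
    by_contra hc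
    push Not at hc
    obtain ⟨a, b⟩ := hc
    have a' : g 0 1 = -(g 0 0) := by linarith
    have b' : g 1 1 = -(g 1 0) := by linarith
    rw [a', b'] at hd
    linarith)
  rw [h3]
  unfold dF
  rw [Lib.mul00, Lib.mul01, Lib.mul10, Lib.mul11]
  have e1 : γ 0 0 * g 0 1 + γ 0 1 * g 1 1 - (γ 0 0 * g 0 0 + γ 0 1 * g 1 0)
    = γ 0 0 * (g 0 1 - g 0 0) + γ 0 1 * (g 1 1 - g 1 0) := by ring
  have e2 : γ 1 0 * g 0 1 + γ 1 1 * g 1 1 - (γ 1 0 * g 0 0 + γ 1 1 * g 1 0)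
    = γ 1 0 * (g 0 1 - g 0 0) + γ 1 1 * (g 1 1 - g 1 0) := by ring
  have e3 : γ 0 0 * g 0 0 + γ 0 1 * g 1 0 + (γ 0 0 * g 0 1 + γ 0 1 * g 1 1)
    = γ 0 0 * (g 0 0 + g 0 1) + γ 0 1 * (g 1 0 + g 1 1) := by ring
  have e4 : γ 1 0 * g 0 0 + γ 1 1 * g 1 0 + (γ 1 0 * g 0 1 + γ 1 1 * g 1 1)
    = γ 1 0 * (g 0 0 + g 0 1) + γ 1 1 * (g 1 0 + g 1 1) := by ring
  rw [e1, e2, e3, e4, k1, k2]
  ring

/-- the inductive statement -/
def dP (N : ℕ) (g : SL(2, ℤ)) : Prop := ∃ v : PN N → ℤ,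
  (∀ x, v x + v (mv N x ModularGroup.S) = 0) ∧
  (∀ x, v x + v (mv N x mR) + v (mv N x (mR * mR)) = dn N 1 x - dn N g x) ∧
  ∀ (w : PN N → ℝ) (C : ℤ → ℤ → ℝ), Pot N w C →
    (1 / 6) * ∑ᶠ x : PN N, (v x : ℝ) * dF C (rep N x) = dA C g - dA C 1

theorem dP_one (N : ℕ) : dP N 1 :=
  ⟨fun _ => 0, fun x => by simp, fun x => by simp, fun w C _ => by simp⟩

theorem dP_neg {N : ℕ} {g : SL(2, ℤ)} (h : dP N g) : dP N (-g) := by
  obtain ⟨v, h1, h2, h3⟩ := h
  refine ⟨v, h1, fun x => ?_, fun w C hw => ?_⟩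
  · rw [h2 x]
    unfold dn
    rw [dual_cls_neg]
  · rw [h3 w C hw, dA_neg hw.hom]

theorem dual_cls_shift (hM : ST_MVB) {N : ℕ} (hN : 1 ≤ N) (a g : SL(2, ℤ)) :
    (cls N a = cls N (g * mR)) ↔ cls N (a * (mR * mR)) = cls N g := by
  rw [← dual_cancel hM hN a (g * mR) (mR * mR)]
  have : g * mR * (mR * mR) = -g := by
    rw [mul_assoc, ← mul_assoc mR mR mR, dual_RRR, mul_neg, mul_one]
  rw [this, dual_cls_neg]

open Classical in
theorem dn_R (hM : ST_MVB) (hCos : ST_COS) {N : ℕ} (hN : 1 ≤ N) (g : SL(2, ℤ)) (x : PN N) :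
    dn N (g * mR) x = dn N g x := by
  obtain ⟨a, rfl⟩ : ∃ a, cls N a = x := ⟨rep N x, (hCos N hN).1 x⟩
  unfold dn
  rw [(hM N hN).1, (hM N hN).1]
  have e1 := dual_cls_shift hM hN a g
  have e2 := dual_cancel hM hN a g mR
  have e3 : cls N (a * (mR * mR)) = cls N (g * mR) ↔ cls N (a * mR) = cls N g := by
    rw [← mul_assoc]
    exact dual_cancel hM hN (a * mR) g mR
  simp only [e1, e2, e3]
  ring

theorem dP_R (hM : ST_MVB) (hCos : ST_COS) {N : ℕ} (hN : 1 ≤ N) {g : SL(2, ℤ)} (h : dP N g) :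
    dP N (g * mR) := by
  obtain ⟨v, h1, h2, h3⟩ := h
  refine ⟨v, h1, fun x => ?_, fun w C hw => ?_⟩
  · rw [h2 x, dn_R hM hCos hN]
  · rw [h3 w C hw, dA_R hw.hom]

open Classical in
theorem dP_S (hM : ST_MVB) (hCos : ST_COS) (hP : ST_PNF) {N : ℕ} (hN : 1 ≤ N) {g : SL(2, ℤ)} (h : dP N g) :
    dP N (g * ModularGroup.S) := by
  obtain ⟨v, h1, h2, h3⟩ := h
  refine ⟨fun x => v x + (if x = cls N g then 1 else 0) - (if x = cls N (g * ModularGroup.S) then 1 else 0),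
    fun x => ?_, fun x => ?_, fun w C hw => ?_⟩
  · obtain ⟨a, rfl⟩ : ∃ a, cls N a = x := ⟨rep N x, (hCos N hN).1 x⟩
    have h1a := h1 (cls N a)
    rw [(hM N hN).1] at h1a ⊢
    have e1 := dual_cancel hM hN a g ModularGroup.S
    have e2 : cls N (a * ModularGroup.S) = cls N g ↔ cls N a = cls N (g * ModularGroup.S) := by
      rw [← dual_cancel hM hN (a * ModularGroup.S) g ModularGroup.S, mul_assoc, dual_SS, mul_neg, mul_one,
        dual_cls_neg]
    simp only [e1, e2]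
    linarith
  · have h2x := h2 x
    simp only
    unfold dn at h2x ⊢
    linarith
  · have : Finite (PN N) := (hP N hN).1
    have : Fintype (PN N) := Fintype.ofFinite _
    have h3w := h3 w C hw
    rw [finsum_eq_sum_of_fintype] at h3w ⊢
    have e : ∀ x : PN N, ((v x + (if x = cls N g then 1 else 0) - (if x = cls N (g * ModularGroup.S) then 1 else 0) : ℤ) : ℝ)
        * dF C (rep N x) = (v x : ℝ) * dF C (rep N x) + (if x = cls N g then dF C (rep N x) else 0) -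
        (if x = cls N (g * ModularGroup.S) then dF C (rep N x) else 0) := by
      intro x
      push_cast
      split_ifs <;> ring
    rw [Finset.sum_congr rfl fun x _ => e x, Finset.sum_sub_distrib, Finset.sum_add_distrib,
      Finset.sum_ite_eq' Finset.univ (cls N g) (fun x => dF C (rep N x)),
      Finset.sum_ite_eq' Finset.univ (cls N (g * ModularGroup.S)) (fun x => dF C (rep N x))]
    simp only [Finset.mem_univ, if_true]
    rw [dF_cls hCos hN hw.eqv, dF_cls hCos hN hw.eqv, dF_S hw.hom, dA_S hw.hom]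
    linarith

theorem dP_all (hM : ST_MVB) (hCos : ST_COS) (hP : ST_PNF) {N : ℕ} (hN : 1 ≤ N) (g : SL(2, ℤ)) : dP N g := by
  have hg : g ∈ Subgroup.closure ({ModularGroup.S, ModularGroup.T} : Set SL(2, ℤ)) := by
    rw [SpecialLinearGroup.SL2Z_generators]
    exact Subgroup.mem_top g
  induction hg using Subgroup.closure_induction_right with
  | one => exact dP_one N
  | mul_right x hx y hy ih =>
    rcases hy with rfl | hy
    · exact dP_S hM hCos hP hN ih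
    · rw [Set.mem_singleton_iff] at hy
      subst hy
      rw [dual_T, mul_neg, ← mul_assoc]
      exact dP_neg (dP_S hM hCos hP hN (dP_R hM hCos hN ih))
  | mul_inv_cancel x hx y hy ih =>
    rcases hy with rfl | hy
    · rw [dual_Sinv, mul_neg]
      exact dP_neg (dP_S hM hCos hP hN ih)
    · rw [Set.mem_singleton_iff] at hy
      subst hy
      rw [dual_Tinv, mul_neg, ← mul_assoc, ← mul_assoc]
      exact dP_neg (dP_R hM hCos hN (dP_R hM hCos hN (dP_S hM hCos hP hN ih)))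

theorem st_DUAL (hM : ST_MVB) (hF : ST_FORM) (hCos : ST_COS) (hP : ST_PNF) : ST_DUAL := by
  intro N hN γ hγ
  obtain ⟨v, h1, h2, h3⟩ := dP_all hM hCos hP hN γ
  have hcls : cls N γ = cls N 1 := by
    rw [(hCos N hN).2]
    simpa using inv_mem hγ
  have hsym : Sym N (fun x => (v x : ℝ)) := by
    refine ⟨fun x => by exact_mod_cast h1 x, fun x => ?_⟩
    have e : dn N γ x = dn N 1 x := by
      unfold dn
      rw [hcls]
    have := h2 x
    rw [e, sub_self] at this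
    exact_mod_cast this
  refine ⟨v, hsym, fun w C hw => ?_⟩
  have hf := hF N w (fun x => (v x : ℝ)) C hN hw hsym
  rw [hf]
  have h3w := h3 w C hw
  unfold dF at h3w
  rw [h3w]
  have h4 := Lib.g0_of_mem hγ
  have k0 := hw.eqv _ _ _ _ h4 0 1 (Or.inr one_ne_zero)
  have k1 := hw.eqv _ _ _ _ h4 1 1 (Or.inr one_ne_zero)
  simp only [mul_zero, mul_one, zero_add] at k0 k1
  unfold dA
  rw [k0, k1]
  have r00 : (1 : SL(2, ℤ)) 0 0 = 1 := rfl
  have r01 : (1 : SL(2, ℤ)) 0 1 = 0 := rfl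
  have r10 : (1 : SL(2, ℤ)) 1 0 = 0 := rfl
  have r11 : (1 : SL(2, ℤ)) 1 1 = 1 := rfl
  rw [r00, r01, r10, r11]
  norm_num
  ring

end dual

end Pool.Agent.Helper96.MP
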