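import Pool.Agent.Helper42.MP.MVB

/-!
# FORM and RAD: the intersection form in terms of potentials
-/

set_option autoImplicit false

namespace Pool.Agent.Helper96.MP

open Complex MeasureTheory Filter Topology
open scoped MatrixGroups

section form

/-- right multiplication as a permutation -/
noncomputable def formE (hM : ST_MVB) (hCos : ST_COS) (N : ℕ) (hN : 1 ≤ N) (k : SL(2, ℤ)) : PN N ≃ PN N where
  toFun x := mv N x k
  invFun x := mv N x k⁻¹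
  left_inv x := by
    obtain ⟨g, rfl⟩ : ∃ g, cls N g = x := ⟨rep N x, (hCos N hN).1 x⟩
    show mv N (mv N (cls N g) k) k⁻¹ = cls N g
    rw [(hM N hN).1, (hM N hN).1, mul_inv_cancel_right]
  right_inv x := by
    obtain ⟨g, rfl⟩ : ∃ g, cls N g = x := ⟨rep N x, (hCos N hN).1 x⟩
    show mv N (mv N (cls N g) k⁻¹) k = cls N g
    rw [(hM N hN).1, (hM N hN).1, inv_mul_cancel_right]

theorem form_sum (hM : ST_MVB) (hCos : ST_COS) {N : ℕ} (hN : 1 ≤ N) [Fintype (PN N)] (k : SL(2, ℤ)) (f : PN N → ℝ) :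
    ∑ x, f (mv N x k) = ∑ x, f x := (formE hM hCos N hN k).sum_comp f

/-- second difference -/
def formG (C : ℤ → ℤ → ℝ) (g : SL(2, ℤ)) : ℝ :=
  C (g 0 1) (g 1 1) + C (g 0 0) (g 1 0) - 2 * C (g 0 0 + g 0 1) (g 1 0 + g 1 1)

theorem form_nz00 (g : SL(2, ℤ)) : g 0 0 ≠ 0 ∨ g 1 0 ≠ 0 := by
  by_contra hc
  push Not at hc
  have hd := Lib.det1 g
  rw [hc.1, hc.2] at hd
  simp at hd

theorem form_nz01 (g : SL(2, ℤ)) : g 0 1 ≠ 0 ∨ g 1 1 ≠ 0 := by
  by_contra hc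
  push Not at hc
  have hd := Lib.det1 g
  rw [hc.1, hc.2] at hd
  simp at hd

theorem form_nz1 (g : SL(2, ℤ)) : g 0 0 + g 0 1 ≠ 0 ∨ g 1 0 + g 1 1 ≠ 0 := by
  by_contra hc
  push Not at hc
  obtain ⟨a, b⟩ := hc
  have hd := Lib.det1 g
  have a' : g 0 1 = -(g 0 0) := by linarith
  have b' : g 1 1 = -(g 1 0) := by linarith
  rw [a', b'] at hd
  linarith

theorem formG_cls (hCos : ST_COS) {N : ℕ} (hN : 1 ≤ N) {C : ℤ → ℤ → ℝ} (hC : EqC N C) (g : SL(2, ℤ)) :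
    formG C (rep N (cls N g)) = formG C g := by
  obtain ⟨γ, hγ, e⟩ := mvb_cls_left hCos hN g
  have h4 := Lib.g0_of_mem hγ
  have k1 := hC _ _ _ _ h4 _ _ (form_nz00 g)
  have k2 := hC _ _ _ _ h4 _ _ (form_nz01 g)
  have k3 := hC _ _ _ _ h4 _ _ (form_nz1 g)
  rw [e]
  unfold formG
  rw [Lib.mul00, Lib.mul01, Lib.mul10, Lib.mul11]
  have e3 : γ 0 0 * g 0 0 + γ 0 1 * g 1 0 + (γ 0 0 * g 0 1 + γ 0 1 * g 1 1)
    = γ 0 0 * (g 0 0 + g 0 1) + γ 0 1 * (g 1 0 + g 1 1) := by ring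
  have e4 : γ 1 0 * g 0 0 + γ 1 1 * g 1 0 + (γ 1 0 * g 0 1 + γ 1 1 * g 1 1)
    = γ 1 0 * (g 0 0 + g 0 1) + γ 1 1 * (g 1 0 + g 1 1) := by ring
  rw [e3, e4, k1, k2, k3]
  ring

theorem formG_S {C : ℤ → ℤ → ℝ} (hC : Hom0 C) (g : SL(2, ℤ)) :
    formG C (g * ModularGroup.S) = formG C g + 2 * C (g 0 0 + g 0 1) (g 1 0 + g 1 1)
      - 2 * C (g 0 1 - g 0 0) (g 1 1 - g 1 0) := by
  unfold formG
  rw [Lib.mul00, Lib.mul01, Lib.mul10, Lib.mul11, mvb_S00, mvb_S01, mvb_S10, mvb_S11]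
  have e1 : g 0 0 * -1 + g 0 1 * 0 = -(g 0 0) := by ring
  have e2 : g 1 0 * -1 + g 1 1 * 0 = -(g 1 0) := by ring
  have e3 : g 0 0 * 0 + g 0 1 * 1 = g 0 1 := by ring
  have e4 : g 1 0 * 0 + g 1 1 * 1 = g 1 1 := by ring
  rw [e1, e2, e3, e4, dual_neg hC]
  have e5 : g 0 1 + -(g 0 0) = g 0 1 - g 0 0 := by ring
  have e6 : g 1 1 + -(g 1 0) = g 1 1 - g 1 0 := by ring
  rw [e5, e6]
  ring

theorem form_wR {N : ℕ} {w : PN N → ℝ} {C : ℤ → ℤ → ℝ} (h : Pot N w C) (g : SL(2, ℤ)) :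
    w (cls N (g * mR)) = C (g 0 0 + g 0 1) (g 1 0 + g 1 1) - C (g 0 0) (g 1 0) := by
  have hC := h.hom
  rw [h.dif, Lib.mul00, Lib.mul01, Lib.mul10, Lib.mul11, mvb_R00, mvb_R01, mvb_R10, mvb_R11]
  have e1 : g 0 0 * -1 + g 0 1 * 0 = -(g 0 0) := by ring
  have e2 : g 1 0 * -1 + g 1 1 * 0 = -(g 1 0) := by ring
  have e3 : g 0 0 * 1 + g 0 1 * 1 = g 0 0 + g 0 1 := by ring
  have e4 : g 1 0 * 1 + g 1 1 * 1 = g 1 0 + g 1 1 := by ring
  rw [e1, e2, e3, e4, dual_neg hC]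

theorem form_RR : mR⁻¹ = -(mR * mR) := by
  have h : mR * (-(mR * mR)) = 1 := by
    rw [mul_neg, ← mul_assoc, dual_RRR, neg_neg]
  exact inv_eq_of_mul_eq_one_right h

theorem form_wRi {N : ℕ} {w : PN N → ℝ} {C : ℤ → ℤ → ℝ} (h : Pot N w C) (g : SL(2, ℤ)) :
    w (cls N (g * mR⁻¹)) = C (g 0 1) (g 1 1) - C (g 0 0 + g 0 1) (g 1 0 + g 1 1) := by
  have hC := h.hom
  rw [form_RR, mul_neg, dual_cls_neg, h.dif]
  simp only [Lib.mul00 g, Lib.mul01 g, Lib.mul10 g, Lib.mul11 g, mvb_RR00, mvb_RR01, mvb_RR10, mvb_RR11]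
  have e5 : g 0 0 * 0 + g 0 1 * 1 = g 0 1 := by ring
  have e6 : g 1 0 * 0 + g 1 1 * 1 = g 1 1 := by ring
  have e7 : g 0 0 * -1 + g 0 1 * -1 = -(g 0 0 + g 0 1) := by ring
  have e8 : g 1 0 * -1 + g 1 1 * -1 = -(g 1 0 + g 1 1) := by ring
  rw [e5, e6, e7, e8, dual_neg hC]

theorem st_FORM (hM : ST_MVB) (hCos : ST_COS) (hP : ST_PNF) : ST_FORM := by
  intro N w v C hN hw hv
  have : Finite (PN N) := (hP N hN).1
  have : Fintype (PN N) := Fintype.ofFinite _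
  unfold Bs
  rw [finsum_eq_sum_of_fintype, finsum_eq_sum_of_fintype]
  congr 1
  have h1 : ∑ x, w x * v (mv N x mR) = ∑ x, w (mv N x mR⁻¹) * v x := by
    rw [← form_sum hM hCos hN mR fun x => w (mv N x mR⁻¹) * v x]
    refine Finset.sum_congr rfl fun x _ => ?_
    have : mv N (mv N x mR) mR⁻¹ = x := (formE hM hCos N hN mR).left_inv x
    rw [this]
  have h2 : ∑ x, (w x * v (mv N x mR) - w (mv N x mR) * v x) = ∑ x, v x * formG C (rep N x) := by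
    rw [Finset.sum_sub_distrib, h1, ← Finset.sum_sub_distrib]
    refine Finset.sum_congr rfl fun x _ => ?_
    have e1 : mv N x mR⁻¹ = cls N (rep N x * mR⁻¹) := rfl
    have e2 : mv N x mR = cls N (rep N x * mR) := rfl
    rw [e1, e2, form_wR hw, form_wRi hw]
    unfold formG
    ring
  have h3 : ∑ x, v x * formG C (rep N x) = - ∑ x, v x * formG C (rep N x * ModularGroup.S) := by
    rw [← form_sum hM hCos hN ModularGroup.S fun x => v x * formG C (rep N x), ← Finset.sum_neg_distrib]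
    refine Finset.sum_congr rfl fun x _ => ?_
    have e1 : mv N x ModularGroup.S = cls N (rep N x * ModularGroup.S) := rfl
    have e2 : v (mv N x ModularGroup.S) = - v x := by linarith [hv.two x]
    rw [e2, e1, formG_cls hCos hN hw.eqv]
    ring
  have h4 : ∑ x, v x * formG C (rep N x * ModularGroup.S) = ∑ x, v x * formG C (rep N x) +
      ∑ x, v x * (2 * C (rep N x 0 0 + rep N x 0 1) (rep N x 1 0 + rep N x 1 1)
      - 2 * C (rep N x 0 1 - rep N x 0 0) (rep N x 1 1 - rep N x 1 0)) := by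
    rw [← Finset.sum_add_distrib]
    refine Finset.sum_congr rfl fun x _ => ?_
    rw [formG_S hw.hom]
    ring
  have h5 : ∑ x, v x * (2 * C (rep N x 0 0 + rep N x 0 1) (rep N x 1 0 + rep N x 1 1)
      - 2 * C (rep N x 0 1 - rep N x 0 0) (rep N x 1 1 - rep N x 1 0)) =
      -2 * ∑ x, v x * (C (rep N x 0 1 - rep N x 0 0) (rep N x 1 1 - rep N x 1 0) -
        C (rep N x 0 0 + rep N x 0 1) (rep N x 1 0 + rep N x 1 1)) := by
    rw [Finset.mul_sum]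
    exact Finset.sum_congr rfl fun x _ => by ring
  rw [h2]
  rw [h4, h5] at h3
  linarith

end form

end Pool.Agent.Helper96.MP
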