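import Pool.Agent.Helper42.MP.DUAL

/-!
# MVB: basic facts on Manin symbols
-/

set_option autoImplicit false

namespace Pool.Agent.Helper96.MP

open Complex MeasureTheory Filter Topology
open scoped MatrixGroups

section mvb

theorem mvb_cls_left (hCos : ST_COS) {N : ℕ} (hN : 1 ≤ N) (g : SL(2, ℤ)) :
    ∃ γ ∈ CongruenceSubgroup.Gamma0 N, rep N (cls N g) = γ * g := by
  have h1 := (hCos N hN).1 (cls N g)
  have h2 := ((hCos N hN).2 g (rep N (cls N g))).1 h1.symm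
  exact ⟨rep N (cls N g) * g⁻¹, h2, by group⟩

theorem mvb_mul (hCos : ST_COS) {N : ℕ} (hN : 1 ≤ N) (g h : SL(2, ℤ)) :
    mv N (cls N g) h = cls N (g * h) := by
  obtain ⟨γ, hγ, e⟩ := mvb_cls_left hCos hN g
  unfold mv
  rw [e, (hCos N hN).2]
  have : g * h * (γ * g * h)⁻¹ = γ⁻¹ := by group
  rw [this]
  exact inv_mem hγ

theorem mvb_uni_iff (N : ℕ) (c d : ℤ) : Uni N c d ↔ ∃ a b e : ℤ, a * c + b * d + e * N = 1 := by
  unfold Uni
  rw [← Int.isCoprime_iff_gcd_eq_one]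
  constructor
  · rintro ⟨u, v, h⟩
    have hg := Int.gcd_eq_gcd_ab c d
    refine ⟨u * Int.gcdA c d, u * Int.gcdB c d, v, ?_⟩
    rw [hg] at h
    linarith
  · rintro ⟨a, b, e, h⟩
    obtain ⟨c1, hc⟩ := Int.gcd_dvd_left (a := c) (b := d)
    obtain ⟨d1, hd⟩ := Int.gcd_dvd_right (a := c) (b := d)
    refine ⟨a * c1 + b * d1, e, ?_⟩
    have : (a * c1 + b * d1) * (Int.gcd c d : ℤ) = a * ((Int.gcd c d : ℤ) * c1) + b * ((Int.gcd c d : ℤ) * d1) := by ring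
    rw [this, ← hc, ← hd]
    exact h

theorem mvb_uni_mul {N : ℕ} {c d : ℤ} (h : Uni N c d) (k : SL(2, ℤ)) :
    Uni N (c * k 0 0 + d * k 1 0) (c * k 0 1 + d * k 1 1) := by
  rw [mvb_uni_iff] at h ⊢
  obtain ⟨a, b, e, h⟩ := h
  have hk := Lib.det1 k
  refine ⟨a * k 1 1 - b * k 0 1, b * k 0 0 - a * k 1 0, e, ?_⟩
  have : (a * k 1 1 - b * k 0 1) * (c * k 0 0 + d * k 1 0) + (b * k 0 0 - a * k 1 0) * (c * k 0 1 + d * k 1 1)
    = (a * c + b * d) * (k 0 0 * k 1 1 - k 0 1 * k 1 0) := by ring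
  rw [this, hk, mul_one]
  exact h

theorem mvb_ev {N : ℕ} {w : PN N → ℝ} {c d : ℤ} (h : Uni N c d) :
    ev w c d = w (Quotient.mk (sPN N) ⟨(c, d), h⟩) := by
  unfold ev
  rw [dif_pos h]

theorem mvb_ev_mul (hCos : ST_COS) {N : ℕ} (hN : 1 ≤ N) (w : PN N → ℝ) {c d : ℤ} (h : Uni N c d) (k : SL(2, ℤ)) :
    ev w (c * k 0 0 + d * k 1 0) (c * k 0 1 + d * k 1 1) = w (mv N (Quotient.mk (sPN N) ⟨(c, d), h⟩) k) := by
  rw [mvb_ev (mvb_uni_mul h k)]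
  have h1 := (hCos N hN).1 (Quotient.mk (sPN N) ⟨(c, d), h⟩)
  set g := rep N (Quotient.mk (sPN N) ⟨(c, d), h⟩) with hg
  have h2 : eqv N (g 1 0) (g 1 1) c d := Quotient.exact h1
  obtain ⟨l, hl, ⟨a, ha⟩, ⟨b, hb⟩⟩ := h2
  have h3 : mv N (Quotient.mk (sPN N) ⟨(c, d), h⟩) k = cls N (g * k) := rfl
  rw [h3]
  congr 1
  unfold cls
  refine Eq.symm (Quotient.sound ?_)
  show eqv N ((g * k) 1 0) ((g * k) 1 1) (c * k 0 0 + d * k 1 0) (c * k 0 1 + d * k 1 1)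
  refine ⟨l, hl, ⟨a * k 0 0 + b * k 1 0, ?_⟩, ⟨a * k 0 1 + b * k 1 1, ?_⟩⟩
  · rw [Lib.mul10]
    have : c * k 0 0 + d * k 1 0 - l * (g 1 0 * k 0 0 + g 1 1 * k 1 0) =
      (c - l * g 1 0) * k 0 0 + (d - l * g 1 1) * k 1 0 := by ring
    rw [this, ha, hb]
    ring
  · rw [Lib.mul11]
    have : c * k 0 1 + d * k 1 1 - l * (g 1 0 * k 0 1 + g 1 1 * k 1 1) =
      (c - l * g 1 0) * k 0 1 + (d - l * g 1 1) * k 1 1 := by ring
    rw [this, ha, hb]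
    ring

theorem mvb_ev_cls {N : ℕ} (w : PN N → ℝ) (g : SL(2, ℤ)) : ev w (g 1 0) (g 1 1) = w (cls N g) :=
  mvb_ev (cls_uni N g)

theorem mvb_R00 : mR 0 0 = 1 := rfl
theorem mvb_R01 : mR 0 1 = -1 := rfl
theorem mvb_R10 : mR 1 0 = 1 := rfl
theorem mvb_R11 : mR 1 1 = 0 := rfl
theorem mvb_RR00 : (mR * mR) 0 0 = 0 := rfl
theorem mvb_RR01 : (mR * mR) 0 1 = -1 := rfl
theorem mvb_RR10 : (mR * mR) 1 0 = 1 := rfl
theorem mvb_RR11 : (mR * mR) 1 1 = -1 := rfl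
theorem mvb_S00 : ModularGroup.S 0 0 = 0 := rfl
theorem mvb_S01 : ModularGroup.S 0 1 = -1 := rfl
theorem mvb_S10 : ModularGroup.S 1 0 = 1 := rfl
theorem mvb_S11 : ModularGroup.S 1 1 = 0 := rfl

theorem mvb_sym (hCos : ST_COS) {N : ℕ} (hN : 1 ≤ N) {w : PN N → ℝ} {C : ℤ → ℤ → ℝ} (h : Pot N w C) :
    Sym N w := by
  have hC := h.hom
  constructor
  · intro x
    obtain ⟨g, rfl⟩ : ∃ g, cls N g = x := ⟨rep N x, (hCos N hN).1 x⟩
    rw [mvb_mul hCos hN, h.dif, h.dif, Lib.mul00, Lib.mul01, Lib.mul10, Lib.mul11, mvb_S00, mvb_S01, mvb_S10,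
      mvb_S11]
    have e1 : g 0 0 * -1 + g 0 1 * 0 = -(g 0 0) := by ring
    have e2 : g 1 0 * -1 + g 1 1 * 0 = -(g 1 0) := by ring
    have e3 : g 0 0 * 0 + g 0 1 * 1 = g 0 1 := by ring
    have e4 : g 1 0 * 0 + g 1 1 * 1 = g 1 1 := by ring
    rw [e1, e2, e3, e4, dual_neg hC]
    ring
  · intro x
    obtain ⟨g, rfl⟩ : ∃ g, cls N g = x := ⟨rep N x, (hCos N hN).1 x⟩
    rw [mvb_mul hCos hN, mvb_mul hCos hN, h.dif, h.dif, h.dif]
    simp only [Lib.mul00 g, Lib.mul01 g, Lib.mul10 g, Lib.mul11 g, mvb_R00, mvb_R01, mvb_R10, mvb_R11,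
      mvb_RR00, mvb_RR01, mvb_RR10, mvb_RR11]
    have e1 : g 0 0 * -1 + g 0 1 * 0 = -(g 0 0) := by ring
    have e2 : g 1 0 * -1 + g 1 1 * 0 = -(g 1 0) := by ring
    have e3 : g 0 0 * 1 + g 0 1 * 1 = g 0 0 + g 0 1 := by ring
    have e4 : g 1 0 * 1 + g 1 1 * 1 = g 1 0 + g 1 1 := by ring
    have e5 : g 0 0 * 0 + g 0 1 * 1 = g 0 1 := by ring
    have e6 : g 1 0 * 0 + g 1 1 * 1 = g 1 1 := by ring
    have e7 : g 0 0 * -1 + g 0 1 * -1 = -(g 0 0 + g 0 1) := by ring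
    have e8 : g 1 0 * -1 + g 1 1 * -1 = -(g 1 0 + g 1 1) := by ring
    rw [e1, e2, e3, e4, e5, e6, e7, e8, dual_neg hC, dual_neg hC]
    ring

theorem st_MVB (hCos : ST_COS) (hFar : ST_FAREY) (hVex : ST_VEX) : ST_MVB := by
  intro N hN
  have hb : ∀ w : PN N → ℝ, Sym N w ↔
    ((∀ c d : ℤ, Uni N c d → ev w c d + ev w d (-c) = 0) ∧
     (∀ c d : ℤ, Uni N c d → ev w c d + ev w (c + d) (-c) + ev w d (-c - d) = 0)) := by
    intro w
    have k1 : ∀ c d : ℤ, ∀ h : Uni N c d, ev w d (-c) = w (mv N (Quotient.mk (sPN N) ⟨(c, d), h⟩) ModularGroup.S) := by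
      intro c d h
      rw [← mvb_ev_mul hCos hN w h ModularGroup.S, mvb_S00, mvb_S01, mvb_S10, mvb_S11]
      congr 1 <;> ring
    have k2 : ∀ c d : ℤ, ∀ h : Uni N c d, ev w (c + d) (-c) = w (mv N (Quotient.mk (sPN N) ⟨(c, d), h⟩) mR) := by
      intro c d h
      rw [← mvb_ev_mul hCos hN w h mR, mvb_R00, mvb_R01, mvb_R10, mvb_R11]
      congr 1 <;> ring
    have k3 : ∀ c d : ℤ, ∀ h : Uni N c d,
        ev w d (-c - d) = w (mv N (Quotient.mk (sPN N) ⟨(c, d), h⟩) (mR * mR)) := by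
      intro c d h
      rw [← mvb_ev_mul hCos hN w h (mR * mR), mvb_RR00, mvb_RR01, mvb_RR10, mvb_RR11]
      congr 1 <;> ring
    constructor
    · intro hw
      refine ⟨fun c d h => ?_, fun c d h => ?_⟩
      · rw [k1 c d h, mvb_ev h]
        exact hw.two _
      · rw [k2 c d h, k3 c d h, mvb_ev h]
        exact hw.three _
    · rintro ⟨h1, h2⟩
      constructor
      · intro x
        induction x using Quotient.inductionOn with
        | h u =>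
          obtain ⟨⟨c, d⟩, h⟩ := u
          have := h1 c d h
          rw [k1 c d h, mvb_ev h] at this
          exact this
      · intro x
        induction x using Quotient.inductionOn with
        | h u =>
          obtain ⟨⟨c, d⟩, h⟩ := u
          have := h2 c d h
          rw [k2 c d h, k3 c d h, mvb_ev h] at this
          exact this
  refine ⟨mvb_mul hCos hN, hb, ?_, fun w C h => mvb_sym hCos hN h, ?_⟩
  · intro w hw
    obtain ⟨h1, h2⟩ := (hb w).1 hw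
    obtain ⟨C, hC1, hC2, hC3⟩ := hFar N hN w h1 h2
    refine ⟨C, hC1, hC2, fun g => ?_⟩
    exact (mvb_ev_cls w g).symm.trans (hC3 _ _ _ _ (Lib.det1 g))
  · intro C h1 h2
    obtain ⟨v, hv⟩ := hVex ℝ N hN C h1 h2
    refine ⟨v, h1, h2, fun g => ?_⟩
    exact (mvb_ev_cls v g).symm.trans (hv _ _ _ _ (Lib.det1 g))

end mvb

end Pool.Agent.Helper96.MP
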