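import Pool.Agent.Helper42.MP.FORM

/-!
# RAD: boundary symbols are in the radical of the intersection form
-/

set_option autoImplicit false

namespace Pool.Agent.Helper96.MP

open Complex MeasureTheory Filter Topology
open scoped MatrixGroups

section rad

/-- an invariant function as a function on the projective line -/
theorem rad_d (hCos : ST_COS) {N : ℕ} (hN : 1 ≤ N) {D : ℤ → ℤ → ℝ} (hD : InvC N D) (g : SL(2, ℤ)) :
    D (rep N (cls N g) 0 0) (rep N (cls N g) 1 0) = D (g 0 0) (g 1 0) := by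
  obtain ⟨γ, hγ, e⟩ := mvb_cls_left hCos hN g
  rw [e, Lib.mul00, Lib.mul10]
  exact hD _ _ _ _ (Lib.g0_of_mem hγ) _ _ (form_nz00 g)

theorem rad_T (k : ℕ) : (ModularGroup.T ^ k : SL(2, ℤ)) 0 0 = 1 ∧ (ModularGroup.T ^ k : SL(2, ℤ)) 0 1 = k ∧
    (ModularGroup.T ^ k : SL(2, ℤ)) 1 0 = 0 ∧ (ModularGroup.T ^ k : SL(2, ℤ)) 1 1 = 1 := by
  have h := Lib.T_pow_coe (k : ℤ)
  rw [zpow_natCast] at h
  rw [h]
  simp

/-- hT^N fixes all values of the potential -/
theorem rad_N {N : ℕ} {C : ℤ → ℤ → ℝ} (hC : EqC N C) (h : SL(2, ℤ)) :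
    C (h 0 0 * N + h 0 1) (h 1 0 * N + h 1 1) = C (h 0 1) (h 1 1) := by
  obtain ⟨t1, t2, t3, t4⟩ := rad_T N
  set γ := h * ModularGroup.T ^ N * h⁻¹ with hγ
  have hd := Lib.det1 h
  have e : γ * h = h * ModularGroup.T ^ N := by rw [hγ]; group
  have e00 := Lib.mul00 γ h
  have e01 := Lib.mul01 γ h
  have e10 := Lib.mul10 γ h
  have e11 := Lib.mul11 γ h
  rw [e] at e00 e01 e10 e11
  rw [Lib.mul00, t1, t3] at e00
  rw [Lib.mul01, t2, t4] at e01
  rw [Lib.mul10, t1, t3] at e10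
  rw [Lib.mul11, t2, t4] at e11
  have hdvd : (N : ℤ) ∣ γ 1 0 := by
    refine ⟨-(h 1 0 * h 1 0), ?_⟩
    have : γ 1 0 = γ 1 0 * (h 0 0 * h 1 1 - h 0 1 * h 1 0) := by rw [hd, mul_one]
    rw [this]
    have k : γ 1 0 * (h 0 0 * h 1 1 - h 0 1 * h 1 0) = (γ 1 0 * h 0 0 + γ 1 1 * h 1 0) * h 1 1 -
      (γ 1 0 * h 0 1 + γ 1 1 * h 1 1) * h 1 0 := by ring
    rw [k, ← e10, ← e11]
    ring
  have hG := Lib.g0_of_mem (Lib.mem_of_dvd hdvd)
  have k1 := hC _ _ _ _ hG _ _ (form_nz00 h)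
  have k2 := hC _ _ _ _ hG _ _ (form_nz01 h)
  rw [← e00, ← e10] at k1
  rw [← e01, ← e11] at k2
  simp only [mul_one, mul_zero, add_zero] at k1 k2
  rw [k2]
  linarith

theorem st_RAD (hF : ST_FORM) (hM : ST_MVB) (hCos : ST_COS) (hP : ST_PNF) : ST_RAD := by
  intro N w v D hN hw hD hv
  have : Finite (PN N) := (hP N hN).1
  have : Fintype (PN N) := Fintype.ofFinite _
  obtain ⟨C, hC⟩ := (hM N hN).2.2.1 v hv
  rw [hF N w v D hN hw hv, finsum_eq_sum_of_fintype]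
  set d : PN N → ℝ := fun x => D (rep N x 0 0) (rep N x 1 0) with hd
  have hdc : ∀ g : SL(2, ℤ), d (cls N g) = D (g 0 0) (g 1 0) := fun g => rad_d hCos hN hD g
  have hmv : ∀ (x : PN N) (k : SL(2, ℤ)), mv N x k = cls N (rep N x * k) := fun _ _ => rfl
  have hmm : ∀ (x : PN N) (k l : SL(2, ℤ)), mv N (mv N x k) l = mv N x (k * l) := by
    intro x k l
    rw [hmv x k, (hM N hN).1, mul_assoc, hmv]
  have hmone : ∀ x : PN N, mv N x 1 = x := by
    intro x
    rw [hmv, mul_one]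
    exact (hCos N hN).1 x
  set Q : ℝ := ∑ y, v (mv N y mR⁻¹) * d y with hQ
  have h1 : ∑ x, v x * D (rep N x 0 0 + rep N x 0 1) (rep N x 1 0 + rep N x 1 1) = Q := by
    rw [hQ, ← form_sum hM hCos hN mR fun y => v (mv N y mR⁻¹) * d y]
    refine Finset.sum_congr rfl fun x _ => ?_
    rw [hmm, mul_inv_cancel, hmone, hmv, hdc, Lib.mul00, Lib.mul10, mvb_R00, mvb_R10, mul_one, mul_one, mul_one,
      mul_one]
  have h2 : ∑ x, v x * D (rep N x 0 1 - rep N x 0 0) (rep N x 1 1 - rep N x 1 0) = - Q := by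
    rw [hQ, ← form_sum hM hCos hN (ModularGroup.S * mR) fun y => v (mv N y mR⁻¹) * d y, ← Finset.sum_neg_distrib]
    refine Finset.sum_congr rfl fun x _ => ?_
    rw [hmm, mul_inv_cancel_right, hmv x (ModularGroup.S * mR), hdc]
    have e : v (mv N x ModularGroup.S) = - v x := by linarith [hv.two x]
    rw [e]
    have s00 : (ModularGroup.S * mR) 0 0 = -1 := rfl
    have s10 : (ModularGroup.S * mR) 1 0 = 1 := rfl
    rw [Lib.mul00 (rep N x), Lib.mul10 (rep N x), s00, s10]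
    have e1 : rep N x 0 0 * -1 + rep N x 0 1 * 1 = rep N x 0 1 - rep N x 0 0 := by ring
    have e2 : rep N x 1 0 * -1 + rep N x 1 1 * 1 = rep N x 1 1 - rep N x 1 0 := by ring
    rw [e1, e2]
    ring
  have hT : ∀ j : ℕ, Q = ∑ y, (C (rep N y 0 0 * j + rep N y 0 1) (rep N y 1 0 * j + rep N y 1 1) -
      C (rep N y 0 0 * (j + 1 : ℕ) + rep N y 0 1) (rep N y 1 0 * (j + 1 : ℕ) + rep N y 1 1)) * d y := by
    intro j
    rw [hQ, ← form_sum hM hCos hN (ModularGroup.T ^ j) fun y => v (mv N y mR⁻¹) * d y]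
    refine Finset.sum_congr rfl fun x _ => ?_
    obtain ⟨t1, t2, t3, t4⟩ := rad_T j
    rw [hmm, hmv x (ModularGroup.T ^ j), hdc, hmv, ← mul_assoc, form_wRi hC]
    simp only [Lib.mul00, Lib.mul01, Lib.mul10, Lib.mul11, t1, t2, t3, t4]
    have e0 : d x = D (rep N x 0 0) (rep N x 1 0) := rfl
    rw [e0]
    simp only [mul_one, mul_zero, add_zero]
    have e1 : rep N x 0 0 + (rep N x 0 0 * (j : ℤ) + rep N x 0 1) = rep N x 0 0 * ((j + 1 : ℕ) : ℤ) + rep N x 0 1 := by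
      push_cast; ring
    have e2 : rep N x 1 0 + (rep N x 1 0 * (j : ℤ) + rep N x 1 1) = rep N x 1 0 * ((j + 1 : ℕ) : ℤ) + rep N x 1 1 := by
      push_cast; ring
    rw [e1, e2]
  have hQ0 : Q = 0 := by
    have h3 : (N : ℝ) * Q = 0 := by
      have : (N : ℝ) * Q = ∑ j ∈ Finset.range N, Q := by
        rw [Finset.sum_const, Finset.card_range, nsmul_eq_mul]
      rw [this, Finset.sum_congr rfl fun j _ => hT j, Finset.sum_comm]
      refine Finset.sum_eq_zero fun y _ => ?_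
      rw [← Finset.sum_mul, Finset.sum_range_sub' (fun j : ℕ => C (rep N y 0 0 * j + rep N y 0 1)
        (rep N y 1 0 * j + rep N y 1 1))]
      rw [rad_N hC.eqv]
      simp
    have hN0 : (N : ℝ) ≠ 0 := by
      have : (0 : ℝ) < N := by exact_mod_cast hN
      exact this.ne'
    exact (mul_eq_zero.1 h3).resolve_left hN0
  have h4 : ∑ x, v x * (D (rep N x 0 1 - rep N x 0 0) (rep N x 1 1 - rep N x 1 0) -
      D (rep N x 0 0 + rep N x 0 1) (rep N x 1 0 + rep N x 1 1)) = -Q - Q := by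
    rw [Finset.sum_congr rfl fun x _ => mul_sub (v x) _ _, Finset.sum_sub_distrib, h1, h2]
  rw [h4, hQ0]
  simp

end rad

end Pool.Agent.Helper96.MP
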